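import Pool.Agent.helper16.EXC.Spec3

set_option autoImplicit false

open Finset

namespace Pool.Agent.EXC

section

variable {n : ℕ} (C : Matrix (Fin n) (Fin n) ℤ) [IsC C] {F : Type} [Field F]

/-- `g` acts on the image of `i3` as `M ↦ Z M Z⁻¹` -/
def ZJC_P (e1 e2 f1 f2 : Lm C F) (g : Lm C F ≃ₗ[F] Lm C F) (Z Z' : Matrix (Fin 3) (Fin 3) F) : Prop :=
  Z * Z' = 1 ∧ ∀ M : Matrix (Fin 3) (Fin 3) F, M.trace = 0 →
    g (i3 C e1 e2 f1 f2 M) = i3 C e1 e2 f1 f2 (Z * M * Z')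

theorem ZJC_tr {Z Z' : Matrix (Fin 3) (Fin 3) F} (h : Z * Z' = 1) (M : Matrix (Fin 3) (Fin 3) F) (hM : M.trace = 0) :
    (Z * M * Z').trace = 0 := by
  have h' : Z' * Z = 1 := mul_eq_one_comm.1 h
  rw [Matrix.trace_mul_comm, ← Matrix.mul_assoc, h', Matrix.one_mul, hM]

variable {C}

theorem ZJC_mul {e1 e2 f1 f2 : Lm C F} {g h : Lm C F ≃ₗ[F] Lm C F} {Z Z' W W' : Matrix (Fin 3) (Fin 3) F}
    (hg : ZJC_P C e1 e2 f1 f2 g Z Z') (hh : ZJC_P C e1 e2 f1 f2 h W W') :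
    ZJC_P C e1 e2 f1 f2 (g * h) (Z * W) (W' * Z') := by
  refine ⟨?_, fun M hM => ?_⟩
  · calc Z * W * (W' * Z') = Z * (W * W') * Z' := by simp only [Matrix.mul_assoc]
      _ = 1 := by rw [hh.1, Matrix.mul_one, hg.1]
  · change g (h (i3 C e1 e2 f1 f2 M)) = _
    rw [hh.2 M hM, hg.2 _ (ZJC_tr hh.1 M hM)]
    simp only [Matrix.mul_assoc]

theorem ZJC_inv {e1 e2 f1 f2 : Lm C F} {g : Lm C F ≃ₗ[F] Lm C F} {Z Z' : Matrix (Fin 3) (Fin 3) F}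
    (hg : ZJC_P C e1 e2 f1 f2 g Z Z') : ZJC_P C e1 e2 f1 f2 g⁻¹ Z' Z := by
  have h' : Z' * Z = 1 := mul_eq_one_comm.1 hg.1
  refine ⟨h', fun M hM => ?_⟩
  have h1 := hg.2 _ (ZJC_tr h' M hM)
  have h2 : Z * (Z' * M * Z) * Z' = M := by
    calc Z * (Z' * M * Z) * Z' = (Z * Z') * M * (Z * Z') := by simp only [Matrix.mul_assoc]
      _ = M := by rw [hg.1, Matrix.one_mul, Matrix.mul_one]
  rw [h2] at h1
  rw [← h1]
  exact g.symm_apply_apply _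

theorem ZJC_pow {e1 e2 f1 f2 : Lm C F} {g : Lm C F ≃ₗ[F] Lm C F} {Z Z' : Matrix (Fin 3) (Fin 3) F}
    (hg : ZJC_P C e1 e2 f1 f2 g Z Z') (m : ℕ) : ZJC_P C e1 e2 f1 f2 (g ^ m) (Z ^ m) (Z' ^ m) := by
  induction m with
  | zero =>
    refine ⟨by simp, fun M _ => ?_⟩
    simp only [pow_zero, Matrix.one_mul, Matrix.mul_one]
    rfl
  | succ m ih =>
    rw [pow_succ, pow_succ, pow_succ']
    exact ZJC_mul ih hg

end

theorem ZJC_mat (F : Type) [Field F] :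
    ((1 + Matrix.single 1 2 1) * (1 - Matrix.single 0 1 1)) ^ 2 *
      ((1 + Matrix.single 2 1 1) * (1 - Matrix.single 1 0 (-1))) ^ 2 =
      (!![-6, -4, -1; 8, 5, 2; 3, 2, 1] : Matrix (Fin 3) (Fin 3) F) := by
  have h1 : ((1 + Matrix.single 1 2 1) * (1 - Matrix.single 0 1 1) : Matrix (Fin 3) (Fin 3) F) =
      !![1, -1, 0; 0, 1, 1; 0, 0, 1] := by
    ext i j
    fin_cases i <;> fin_cases j <;>
      simp [Matrix.mul_apply, Fin.sum_univ_three, Matrix.single, Matrix.one_apply]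
  have h2 : ((1 + Matrix.single 2 1 1) * (1 - Matrix.single 1 0 (-1)) : Matrix (Fin 3) (Fin 3) F) =
      !![1, 0, 0; 1, 1, 0; 1, 1, 1] := by
    ext i j
    fin_cases i <;> fin_cases j <;>
      simp [Matrix.mul_apply, Fin.sum_univ_three, Matrix.single, Matrix.one_apply]
  rw [h1, h2]
  ext i j
  fin_cases i <;> fin_cases j <;>
    simp [pow_two, Matrix.mul_apply, Fin.sum_univ_three] <;> norm_num

theorem ZJC_sub {n : ℕ} (C : Matrix (Fin n) (Fin n) ℤ) [IsC C] {F : Type} [Field F] (e1 e2 f1 f2 : Lm C F)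
    (M N : Matrix (Fin 3) (Fin 3) F) :
    i3 C e1 e2 f1 f2 (M - N) = i3 C e1 e2 f1 f2 M - i3 C e1 e2 f1 f2 N := by
  unfold i3
  simp only [Matrix.sub_apply]
  module

theorem ZJC (hZEQ : ZEQ_stmt) (hZIN : ZIN_stmt) (hZZM : ZZM_stmt) (hFIX : FIX_stmt) : ZJC_stmt := by
  intro n C _ F _ j0 θ δ hE h3 e1 e2 f1 f2 t t' s s' hS ht ht' hs hs' m hm
  have hb : ∀ (i j : Fin 3), i ≠ j → ∀ c : F,
      (1 + Matrix.single i j c : Matrix (Fin 3) (Fin 3) F) * (1 - Matrix.single i j c) = 1 := by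
    intro i j hij c
    have h0 : (Matrix.single i j c : Matrix (Fin 3) (Fin 3) F) * Matrix.single i j c = 0 :=
      Matrix.single_mul_single_of_ne (h := hij.symm) ..
    rw [add_mul, mul_sub, mul_sub, h0]
    simp
  have p1 : ZJC_P C e1 e2 f1 f2 (t : Lm C F ≃ₗ[F] Lm C F) (1 + Matrix.single 0 1 1) (1 - Matrix.single 0 1 1) :=
    ⟨hb 0 1 (by decide) 1, fun M hM => by rw [ht]; exact (hZEQ n C F e1 e2 f1 f2 hS 1 M hM).1⟩
  have p2 : ZJC_P C e1 e2 f1 f2 (t' : Lm C F ≃ₗ[F] Lm C F) (1 + Matrix.single 1 2 1) (1 - Matrix.single 1 2 1) :=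
    ⟨hb 1 2 (by decide) 1, fun M hM => by rw [ht']; exact (hZEQ n C F e1 e2 f1 f2 hS 1 M hM).2.1⟩
  have p3 : ZJC_P C e1 e2 f1 f2 (s : Lm C F ≃ₗ[F] Lm C F) (1 + Matrix.single 2 1 1) (1 - Matrix.single 2 1 1) :=
    ⟨hb 2 1 (by decide) 1, fun M hM => by rw [hs]; exact (hZEQ n C F e1 e2 f1 f2 hS 1 M hM).2.2.2⟩
  have p4 : ZJC_P C e1 e2 f1 f2 (s' : Lm C F ≃ₗ[F] Lm C F) (1 + Matrix.single 1 0 (-1)) (1 - Matrix.single 1 0 (-1)) :=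
    ⟨hb 1 0 (by decide) (-1), fun M hM => by rw [hs']; exact (hZEQ n C F e1 e2 f1 f2 hS (-1) M hM).2.2.1⟩
  have q1 := ZJC_pow (ZJC_mul p2 (ZJC_inv p1)) 2
  have q2 := ZJC_inv (ZJC_pow (ZJC_mul p4 (ZJC_inv p3)) 2)
  have q := ZJC_pow (ZJC_mul q1 q2) m
  rw [ZJC_mat F] at q
  -- the power is trivial
  have hz : ((t' * t⁻¹) ^ 2 * ((s' * s⁻¹) ^ 2)⁻¹) ^ m = 1 := by
    refine (hFIX n C F j0 θ δ hE).2 _ fun g => ?_
    have h1 := DFunLike.congr_fun hm g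
    rw [← map_pow] at h1
    have h2 : ((t' * t⁻¹) ^ 2 * ((s' * s⁻¹) ^ 2)⁻¹) ^ m * g * (((t' * t⁻¹) ^ 2 * ((s' * s⁻¹) ^ 2)⁻¹) ^ m)⁻¹ = g := h1
    rw [mul_inv_eq_iff_eq_mul] at h2
    exact h2
  have hz' : (((t' : Lm C F ≃ₗ[F] Lm C F) * (t : Lm C F ≃ₗ[F] Lm C F)⁻¹) ^ 2 *
      (((s' : Lm C F ≃ₗ[F] Lm C F) * (s : Lm C F ≃ₗ[F] Lm C F)⁻¹) ^ 2)⁻¹) ^ m = 1 := by
    have := congrArg (fun x : EG C F => (x : Lm C F ≃ₗ[F] Lm C F)) hz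
    simpa using this
  rw [hz'] at q
  refine hZZM F h3 m fun M hM => ?_
  obtain ⟨q0, q3⟩ := q
  have h4 := q3 M hM
  have h5 : i3 C e1 e2 f1 f2 M = i3 C e1 e2 f1 f2 (!![-6, -4, -1; 8, 5, 2; 3, 2, 1] ^ m * M * _) := h4
  have h6 := hZIN n C F e1 e2 f1 f2 hS h3 _ (by
    rw [Matrix.trace_sub, hM, ZJC_tr q0 M hM, sub_zero]) ((ZJC_sub C e1 e2 f1 f2 M _).trans (sub_eq_zero.2 h5))
  have h7 := sub_eq_zero.1 h6
  have h8 := mul_eq_one_comm.1 q0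
  conv_rhs => rw [h7]
  rw [Matrix.mul_assoc _ _ (_ ^ m), h8, Matrix.mul_one]

end Pool.Agent.EXC
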